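import Pool.Agent.P.MP_042d8e_al.CK.Main

set_option autoImplicit false

namespace Pool.Agent.Results.MP_042d8e_al.CongruenceKernel

open Pool.Agent.P.MP_042d8e_al Pool.Agent.P.MP_042d8e_al.CK

/-- For a profinite group the following are equivalent: it embeds into the congruence kernel of some
finitely generated self-similar regular branch group; it embeds into the kernel of some normal
T-sequence of such a group; it has an open subgroup that embeds into a countable power of the product
of the profinite integers with a finite nilpotent group. -/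
theorem result (P : ProfiniteGrp.{0}) : List.TFAE
    [∃ (X : Type) (_ : Finite X) (_ : Nontrivial X) (G : Subgroup (Equiv.Perm (List X))),
      Group.FG G ∧ RegBranch G ∧ Embeds P (levelStab G),
    ∃ (X : Type) (_ : Finite X) (_ : Nontrivial X) (G : Subgroup (Equiv.Perm (List X))),
      Group.FG G ∧ RegBranch G ∧ ∃ M : NT G, Embeds P M.1,
    ∃ (U : OpenSubgroup P) (Q : Type) (_ : Group Q) (_ : Finite Q) (_ : TopologicalSpace Q)
      (_ : DiscreteTopology Q), Group.IsNilpotent Q ∧
        ∃ f : U →* (ℕ → ZHat × Q), Continuous f ∧ Function.Injective f] := by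
  tfae_have 1 → 2 := fun ⟨X, a, b, G, c, hG, h⟩ =>
    ⟨X, a, b, G, c, hG, hG.nt.imp fun _ e => by rwa [e]⟩
  tfae_have 2 → 3 := fun ⟨_, _, _, _, _, hG, M, h⟩ => nec P hG M h
  tfae_have 3 → 1 := fun ⟨U, Q, _, _, _, _, _, f, a, b⟩ => suff P U Q f a b
  tfae_finish

end Pool.Agent.Results.MP_042d8e_al.CongruenceKernel
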