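import Pool.Agent.P.MP_042d8e_al.Main

set_option autoImplicit false

namespace Pool.Agent.Results.MP_042d8e_al.Spectrum

open Pool.Agent.P.MP_042d8e_al

/-- A cardinal is the number of equivalence classes of normal T-sequences of some finitely generated
branch group exactly when it is a positive integer, aleph zero or the continuum. -/
theorem result (κ : Cardinal.{0}) :
    (∃ (G : Type) (_ : Group G), Group.FG G ∧ IsBranch G ∧ numClasses G = κ) ↔
      (0 < κ ∧ κ < Cardinal.aleph0) ∨ κ = Cardinal.aleph0 ∨ κ = Cardinal.continuum := by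
  constructor
  · rintro ⟨G, _, h1, h2, rfl⟩
    rcases dichotomy h1 with h | h
    · exact h.lt_or_eq.imp (fun h => ⟨pos_of_branch h2, h⟩) Or.inl
    · exact Or.inr (Or.inr h)
  · rintro (⟨h1, h2⟩ | rfl | rfl)
    · obtain ⟨n, rfl⟩ := Cardinal.lt_aleph0.1 h2
      obtain ⟨k, rfl⟩ := Nat.exists_eq_succ_of_ne_zero (Nat.cast_pos.1 h1).ne'
      obtain ⟨Q, _, _, h⟩ := exists_cyc k
      exact h ▸ exists_fin Q
    · exact exists_aleph0
    · exact exists_continuum

end Pool.Agent.Results.MP_042d8e_al.Spectrum
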