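import Pool.Agent.P.MP_042d8e_al.UK.Main

set_option autoImplicit false

namespace Pool.Agent.Results.MP_042d8e_al.UniversalKernel

open Pool.Agent.P.MP_042d8e_al.CK Pool.Agent.P.MP_042d8e_al.UK

/-- There is a finitely generated just infinite branch group such that a profinite group embeds into
its congruence kernel exactly when it is countably based. -/
theorem result : ∃ (G V : Type) (_ : Group G) (_ : MulAction G V) (lev : V → ℕ) (par : V → V),
    Group.FG G ∧ BranchOn G V lev par ∧ Infinite G ∧
    (∀ N : Subgroup G, N.Normal → N ≠ ⊥ → N.FiniteIndex) ∧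
    ∀ P : ProfiniteGrp.{0}, Embeds P (levSt G lev) ↔ SecondCountableTopology P := by
  obtain ⟨D⟩ := exists_dy
  refine ⟨D.G 0, D.V, inferInstance, inferInstance, _, _, Dy.G_fg, Dy.branch, Dy.G_inf,
    fun _ => Dy.just, fun P => ⟨sc_of_embeds Dy.G_fg, fun _ => ?_⟩⟩
  obtain ⟨γ, h1, h2⟩ := exists_emb P
  exact Dy.embed γ h1 h2

end Pool.Agent.Results.MP_042d8e_al.UniversalKernel
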